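import Pool.Agent.H854R3.NE.Zero

/-!
Every minimal non-Engel variety of associative rings is a Cross variety.

Outline. For a prime `p` and `q = p ^ k` let `W` be the variety of all rings of characteristic `p`
in which the ideal generated by the elements `x ^ q - x` and `x y - y x` has square zero. The
subdirectly irreducible rings of `W` are bounded, so all its subvarieties are Cross varieties.
If the intersections of a variety `V` with all these `W` are Engel, then so is `V`: first the
rings of `V` whose commutator ideal has square zero satisfy an Engel identity (residue fields of
finitely generated commutative rings are finite); hence prime rings of `V` have no zero divisors,
those of characteristic `p` satisfy a polynomial identity and are commutative (density theorem,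
reduction to finite rings, Wedderburn's theorem); hence in two-generated rings of
characteristic `p` in `V` the commutator ideal is nilpotent; finally torsion-free rings and
torsion are treated. A minimal non-Engel variety is therefore contained in some `W`.
-/

set_option autoImplicit false

namespace Pool.Agent.Results.MP_a5aec7_al.MinimalNonEngelCross

open Pool.Agent.H854R3.NE

/-- Every minimal non-Engel variety of associative rings is a Cross variety. -/
theorem _root_.Pool.Agent.Results.MP_a5aec7_al.MinimalNonEngelCross.result
    (E : Set (RTerm × RTerm)) (h : MinimalNonEngel E) : IsCross E :=
  main h

end Pool.Agent.Results.MP_a5aec7_al.MinimalNonEngelCross
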